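import Mathlib
import Pool.Agent.TH813.CurveD

/-!
# Few points of a rational space with `(z, exp_T z)` on a curve, for one-dimensional groups `T`

For a multiplicative group or an elliptic curve `T` over a field `F` and a nonzero polynomial `P`
over `F` in two variables the equation `P(z, exp_T z) = 0` has infinitely many solutions `z` in `ℂ`
(apart from trivial cases), with `tr.deg F(z, exp_T z) ≤ 1 = dim T`. The theorem bounds the number
of those which lie in a finite-dimensional `ℚ`-space `V`, in terms of `dim V` and the degrees of `P`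
only, even if `exp_T z` may be changed by an algebraic point of `T`.
-/

set_option autoImplicit false

open Module
open scoped PeriodPair

namespace Pool.Agent.Results.MP_4aec10_nt.CurvePoints

/-- the invariants of `T` are in `F` (`none`: the multiplicative group, `some L`: the elliptic curve
`ℂ / L.lattice`) -/
def Inv (F : IntermediateField ℚ ℂ) : Option PeriodPair → Prop
  | none => True
  | some L => L.g₂ ∈ F ∧ L.g₃ ∈ F

/-- `u` is a logarithm of a point of `T` which is algebraic over `F` -/
def IsLog (F : IntermediateField ℚ ℂ) : Option PeriodPair → ℂ → Prop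
  | none, u => IsAlgebraic F (Complex.exp u)
  | some L, u => u ∈ L.lattice ∨ IsAlgebraic F (℘[L] u)

/-- `w = e^(z + c)` resp. `w = ℘(z + c)` for some logarithm `c` of an algebraic point -/
def Value (F : IntermediateField ℚ ℂ) : Option PeriodPair → ℂ → ℂ → Prop
  | none, z, w => ∃ c, IsLog F none c ∧ w = Complex.exp (z + c)
  | some L, z, w => ∃ c, IsLog F (some L) c ∧ z + c ∉ L.lattice ∧ w = ℘[L] (z + c)

open Pool.Agent.TH813 in
/-- **Main result.** Let `T` be the multiplicative group or an elliptic curve, with invariants in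
the subfield `F` of `ℂ`, `V` a `ℚ`-space of complex numbers of finite dimension `r`, and let `P ≠ 0`
be a polynomial in two variables over `F`, of degree at most `a` in the first and at most `b` in the
second one.

(1) There are at most `binom((4ab + a + 2b) r, r)` numbers `z` in `V`, transcendental over the field
generated by `F` and all logarithms of `T` in `V`, with `P(z, w) = 0` for some value `w` of `T` at
`z`.

(2) If `0` is the only possible logarithm of `T` in `V`, then there are at most
`binom((4ab + a + 2b) r, r)` nonzero `z` in `V` such that `P(z, Y) ≠ 0` and `P(z, w) = 0` for some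
value `w` of `T` at `z`. -/
theorem result (F : IntermediateField ℚ ℂ) (T : Option PeriodPair) (hT : Inv F T)
    (V : Submodule ℚ ℂ) (hfd : FiniteDimensional ℚ V)
    (P : Polynomial (Polynomial F)) (hP : P ≠ 0)
    (a b : ℕ) (ha : ∀ i, (P.coeff i).natDegree ≤ a) (hb : P.natDegree ≤ b) :
    {z : ℂ | z ∈ V ∧ ¬ IsAlgebraic (F ⊔ IntermediateField.adjoin ℚ
        {u : ℂ | u ∈ V ∧ IsLog F T u} : IntermediateField ℚ ℂ) z ∧
      ∃ w : ℂ, Value F T z w ∧ Polynomial.aevalAeval z w P = 0}.encard ≤
      (((4 * a * b + a + 2 * b) * finrank ℚ V).choose (finrank ℚ V) : ℕ) ∧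
    ((∀ u ∈ V, u ≠ 0 → ¬ IsLog F T u) →
      {z : ℂ | z ∈ V ∧ z ≠ 0 ∧ (∃ i, Polynomial.aeval z (P.coeff i) ≠ 0) ∧
        ∃ w : ℂ, Value F T z w ∧ Polynomial.aevalAeval z w P = 0}.encard ≤
        (((4 * a * b + a + 2 * b) * finrank ℚ V).choose (finrank ℚ V) : ℕ)) := by
  have hI : MixSys.InF F T := by
    cases T with
    | none => trivial
    | some L => exact hT
  have hL : ∀ u, IsLog F T u ↔ MixSys.Null F T u := by
    intro u
    cases T with
    | none => exact Iff.rfl
    | some L => exact Iff.rfl
  have hV : ∀ z w, Value F T z w → CurveG.IsPt F T z w := by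
    intro z w h
    cases T with
    | none =>
      obtain ⟨c, hc, rfl⟩ := h
      exact ⟨Complex.exp c, Complex.exp_ne_zero c, hc, by rw [Complex.exp_add, mul_comm]⟩
    | some L => exact h
  have hM : CurveG.MT T a b ≤ 4 * a * b + a + 2 * b := by
    cases T with
    | none =>
      change (2 * a + 1) * b ≤ _
      have : 4 * a * b + a + 2 * b = (2 * a + 1) * b + (2 * a * b + a + b) := by ring
      omega
    | some L => exact le_rfl
  have hmono : ((CurveG.MT T a b * finrank ℚ V).choose (finrank ℚ V) : ℕ∞) ≤
      (((4 * a * b + a + 2 * b) * finrank ℚ V).choose (finrank ℚ V) : ℕ) := by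
    exact_mod_cast Nat.choose_le_choose _ (Nat.mul_le_mul_right _ hM)
  have hset : {u : ℂ | u ∈ V ∧ IsLog F T u} = {u : ℂ | u ∈ V ∧ MixSys.Null F T u} := by
    ext u
    simp only [Set.mem_ofPred_eq, hL]
  constructor
  · refine le_trans (Set.encard_le_encard ?_)
      ((CurveG.count_set (F := F) hI V P hP ha hb).trans hmono)
    rintro z ⟨h1, h2, w, hw, h3⟩
    refine ⟨h1, ?_, w, hV z w hw, h3⟩
    unfold CurveG.FH
    rw [← hset]
    exact h2
  · intro h0
    refine le_trans (Set.encard_le_encard ?_)
      ((CurveG.count_set' (F := F) hI V (fun u hu hne h => h0 u hu hne ((hL u).2 h)) P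
        ha hb).trans hmono)
    rintro z ⟨h1, h2, h4, w, hw, h3⟩
    exact ⟨h1, h2, h4, w, hV z w hw, h3⟩

end Pool.Agent.Results.MP_4aec10_nt.CurvePoints
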