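import Mathlib
import Pool.Agent.TH813.One2

/-!
# Points `r` with `tr.deg F(r, exp_G r) ≤ 1` for products of `𝔾ₘ` and elliptic curves

`G = T₁ × … × T_q`, where every `T_i` is the multiplicative group (`none`) or an elliptic curve
`ℂ / L.lattice` (`some L`), possibly with complex multiplication and with isogenous or equal
factors, with invariants in a subfield `F` of `ℂ`. The Lie algebra of `G` is `ℂ^q`, and up to
algebraic numbers over `F` the components of `exp_G r` are the numbers `e^(r_i)` resp. `℘(r_i)`.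

For a finite-dimensional `ℚ`-space `V` of vectors in `ℂ^q` the theorem describes all `r` in `V` with
`tr.deg_F F(r, exp_G r) ≤ 1` for which neither all components of `r` nor all components of `exp_G r`
are algebraic over `F`: they are the vectors of this kind in at most `binom(2 dim V, dim V)` rational
subspaces of `V`, each of which as a whole has transcendence degree one.
-/

set_option autoImplicit false

open Module
open scoped PeriodPair

namespace Pool.Agent.Results.MP_4aec10_nt.DegreeOne

/-- the invariants of `T` are in `F` (`none`: the multiplicative group, `some L`: the elliptic curve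
`ℂ / L.lattice`) -/
def Inv (F : IntermediateField ℚ ℂ) : Option PeriodPair → Prop
  | none => True
  | some L => L.g₂ ∈ F ∧ L.g₃ ∈ F

/-- the coordinate of the point `exp_T u`: the number `e^u`, resp. `℘(u)` if `u` is not in the
lattice (if it is then the point is the origin, and the set is empty) -/
def value : Option PeriodPair → ℂ → Set ℂ
  | none, u => {Complex.exp u}
  | some L, u => {w | u ∉ L.lattice ∧ w = ℘[L] u}

/-- the components of `exp_G r` -/
def values {q : ℕ} (T : Fin q → Option PeriodPair) (r : Fin q → ℂ) : Set ℂ :=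
  ⋃ i, value (T i) (r i)

/-- the transcendence degree over `F` of the field generated by `S` over `F` -/
noncomputable def trd (F : IntermediateField ℚ ℂ) (S : Set ℂ) : Cardinal :=
  Algebra.trdeg F (IntermediateField.adjoin F S)

/-- some number in `S` is transcendental over `F` -/
def Trans (F : IntermediateField ℚ ℂ) (S : Set ℂ) : Prop := ∃ x ∈ S, ¬ IsAlgebraic F x

section aux

open Pool.Agent.TH813 Pool.Agent.TH813.One
open Pool.Agent.TH813.Rel (DF trF MK)

variable {F : IntermediateField ℚ ℂ}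

/-- the group types -/
noncomputable def ty (T : Option PeriodPair) (h : Inv F T) : G.Ty F 0 :=
  match T, h with
  | none, _ => G.TM F
  | some L, h => G.TF L h.1 h.2

theorem good_ty (T : Option PeriodPair) (h : Inv F T) : Good (ty T h) := by
  cases T with
  | none => exact good_TM
  | some L => exact good_TF L h.1 h.2

theorem N_ty (T : Option PeriodPair) (h : Inv F T) (z : ℂ) :
    (ty T h).N z = {z} ∪ value T z := by
  cases T with
  | none => rfl
  | some L =>
    change {z} ∪ G.Wp L z = {z} ∪ value (some L) z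
    congr 1
    ext w
    constructor
    · rintro ⟨u, ⟨hu, hl⟩, rfl⟩
      rw [Set.mem_singleton_iff] at hu
      subst hu
      exact ⟨hl, rfl⟩
    · rintro ⟨hl, rfl⟩
      exact ⟨z, ⟨rfl, hl⟩, rfl⟩

theorem W_ty (T : Option PeriodPair) (h : Inv F T) (z : ℂ) : (ty T h).W z = value T z := by
  cases T with
  | none => rfl
  | some L =>
    change G.Wp L z = value (some L) z
    ext w
    constructor
    · rintro ⟨u, ⟨hu, hl⟩, rfl⟩
      rw [Set.mem_singleton_iff] at hu
      subst hu
      exact ⟨hl, rfl⟩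
    · rintro ⟨hl, rfl⟩
      exact ⟨z, ⟨rfl, hl⟩, rfl⟩

theorem trd_mono {S S' : Set ℂ} (h : S ⊆ S') (h1 : trd F S' ≤ 1) : trd F S ≤ 1 := by
  obtain ⟨D₀, hD₀, h2⟩ := trF_le_one.1 h1
  refine trF_le_one.2 ⟨D₀, hD₀, fun D hD => ?_⟩
  obtain ⟨ρ, hρ⟩ := h2 D hD
  exact ⟨ρ, fun x hx => hρ x (h hx)⟩

theorem trans_iff {S : Set ℂ} : Trans F S ↔ ∃ x ∈ S, ∃ D ∈ DF F, D x ≠ 0 := by
  constructor
  · rintro ⟨x, hx, h⟩
    refine ⟨x, hx, ?_⟩
    by_contra hcon
    push Not at hcon
    exact h (ZtFin.alg_of_killed hcon)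
  · rintro ⟨x, hx, D, hD, h⟩
    exact ⟨x, hx, fun ha => h (ZtFin.killed_of_alg ha D hD)⟩

variable {q : ℕ} {T : Fin q → Option PeriodPair}

theorem num_ty (hT : ∀ i, Inv F (T i)) (r : Fin q → ℂ) :
    num (fun i => ty (T i) (hT i)) r = Set.range r ∪ values T r := by
  ext x
  simp only [num, N_ty, values, Set.mem_iUnion, Set.mem_union, Set.mem_singleton_iff,
    Set.mem_range]
  constructor
  · rintro ⟨i, h | h⟩
    · exact Or.inl ⟨i, h.symm⟩
    · exact Or.inr ⟨i, h⟩
  · rintro (⟨i, h⟩ | ⟨i, h⟩)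
    · exact ⟨i, Or.inl h.symm⟩
    · exact ⟨i, Or.inr h⟩

theorem val_iff (hT : ∀ i, Inv F (T i)) (r : Fin q → ℂ) : Trans F (values T r) ↔
    ∃ i, ∃ D ∈ DF F, (ty (T i) (hT i)).lam 0 D (r i) ≠ 0 := by
  rw [trans_iff]
  constructor
  · rintro ⟨x, hx, D, hD, hne⟩
    obtain ⟨i, hi⟩ := Set.mem_iUnion.1 hx
    refine ⟨i, D, hD, fun h0 => hne ?_⟩
    refine ((ty (T i) (hT i)).W_iff D hD (r i)).2 h0 x ?_
    rw [W_ty]
    exact hi
  · rintro ⟨i, D, hD, hne⟩
    by_contra hcon
    push Not at hcon
    apply hne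
    refine ((ty (T i) (hT i)).W_iff D hD (r i)).1 (fun x hx => ?_)
    rw [W_ty] at hx
    exact hcon x (Set.mem_iUnion.2 ⟨i, hx⟩) D hD

theorem two_iff (hT : ∀ i, Inv F (T i)) (r : Fin q → ℂ) : Trans F (Set.range r) ↔
    Two (fun i => ty (T i) (hT i)) r := by
  rw [trans_iff]
  constructor
  · rintro ⟨x, ⟨i, rfl⟩, h⟩
    exact Or.inl ⟨i, h⟩
  · rintro (⟨i, h⟩ | ⟨i, j, hj, -⟩)
    · exact ⟨r i, ⟨i, rfl⟩, h⟩
    · exact absurd (Subsingleton.elim (α := Fin 1) j 0) hj

end aux

open Pool.Agent.TH813.One in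
/-- **Main result.** Let `F` be a subfield of `ℂ`, `G = T₁ × … × T_q`, every `T_i` the multiplicative
group or an elliptic curve with invariants in `F`, and let `V` be a finite-dimensional `ℚ`-space
of vectors in `Lie G = ℂ^q`. There is a finite set of at most `binom(2 dim V, dim V)` subspaces `W`
of `V` such that

* every `W` has `tr.deg_F F(r, exp_G r : r ∈ W) = 1`, and contains some `r` for which `r` and
`exp_G r` have components which are transcendental over `F`;
* if `r` is in two different `W` then all components of `r` and `exp_G r` are algebraic over `F`;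
* for every `r` in `V` such that `r` and `exp_G r` have components which are transcendental over `F`,
`tr.deg_F F(r, exp_G r) ≤ 1` if and only if `r` is in one of the `W`. -/
theorem result (F : IntermediateField ℚ ℂ) {q : ℕ} (T : Fin q → Option PeriodPair)
    (hT : ∀ i, Inv F (T i)) (V : Submodule ℚ (Fin q → ℂ)) (hfd : FiniteDimensional ℚ V) :
    ∃ G : Finset (Submodule ℚ (Fin q → ℂ)),
      G.card ≤ (2 * finrank ℚ V).choose (finrank ℚ V) ∧
      (∀ W ∈ G, W ≤ V ∧ trd F (⋃ r ∈ W, (Set.range r ∪ values T r)) = 1 ∧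
        ∃ r ∈ W, Trans F (Set.range r) ∧ Trans F (values T r)) ∧
      (∀ W ∈ G, ∀ W' ∈ G, W ≠ W' → ∀ r ∈ W ⊓ W', ∀ x ∈ Set.range r ∪ values T r,
        IsAlgebraic F x) ∧
      ∀ r ∈ V, Trans F (Set.range r) → Trans F (values T r) →
        (trd F (Set.range r ∪ values T r) ≤ 1 ↔ ∃ W ∈ G, r ∈ W) := by
  obtain ⟨G, h1, h2, h3, h4⟩ := main_tr (T := fun i => ty (T i) (hT i))
    (fun i => good_ty (T i) (hT i)) V
  have hS : ∀ W : Submodule ℚ (Fin q → ℂ), numS (fun i => ty (T i) (hT i)) W =
      ⋃ r ∈ W, (Set.range r ∪ values T r) := by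
    intro W
    unfold numS
    simp only [num_ty hT]
  refine ⟨G, h1, fun W hW => ?_, fun W hW W' hW' hne r hr x hx => ?_, fun r hr ha hb => ?_⟩
  · obtain ⟨hWV, ⟨y, hyW, hy⟩, ht⟩ := h2 W hW
    rw [hS] at ht
    exact ⟨hWV, ht, y, hyW, (two_iff hT y).2 hy.2.2, (val_iff hT y).2 hy.2.1⟩
  · rw [← num_ty hT] at hx
    exact h3 W hW W' hW' hne r hr.1 hr.2 x hx
  · constructor
    · intro h
      refine h4 r hr ?_ ((val_iff hT r).1 hb) ((two_iff hT r).1 ha)
      rw [num_ty hT]
      exact h
    · rintro ⟨W, hW, hrW⟩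
      have ht := (h2 W hW).2.2
      rw [hS] at ht
      refine trd_mono ?_ (le_of_eq ht)
      exact Set.subset_iUnion₂_of_subset r hrW subset_rfl

end Pool.Agent.Results.MP_4aec10_nt.DegreeOne
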