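import Mathlib
import Pool.Agent.TH813.MixSys

/-!
# Few points of rational spaces satisfy a system of equations between `r` and `exp_G r`

`G` is a product of `n` factors, each the multiplicative group or an elliptic curve over `ℂ` (any
curves, isogenous or not, with or without complex multiplication); `Option PeriodPair` is the type
of the possible factors: `none` is `𝔾ₘ` with exponential `u ↦ e^u`, and `some L`, `L` a pair of
periods, is the curve `ℂ / Ω` with lattice `Ω = L.lattice`, with the exponential
`u ↦ (℘(u), ℘'(u))`; `℘[L]`, `L.g₂`, `L.g₃` are Mathlib's Weierstrass function and invariants.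

The basic systems of `n` equations between the coordinates of `r` in `Lie G = ℂⁿ` and those of
`exp_G r` are the systems `P_i(r) e^{r_i} = Q_i(r)` resp. `P_i(r) ℘(r_i) = Q_i(r)` with polynomials
`P_i`, `Q_i`. The transcendence degree of `F(r, exp_G r)` is at most `n = dim G` for their
solutions `r`, so they are boundary cases of the conjecture. The theorem gives an upper bound for
the number of solutions with coordinates in rational spaces.
-/

set_option autoImplicit false

open Module
open scoped PeriodPair

namespace Pool.Agent.Results.MP_4aec10_nt.FewSolutions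

/-- `u` is a logarithm of a point of the factor which is algebraic over `F` -/
def IsLog (F : IntermediateField ℚ ℂ) : Option PeriodPair → ℂ → Prop
  | none, u => IsAlgebraic F (Complex.exp u)
  | some L, u => u ∈ L.lattice ∨ IsAlgebraic F (℘[L] u)

/-- the equation `A e^{u + c} = B` resp. `A ℘(u + c) = B` with `A ≠ 0` (and `u ≠ 0` for an elliptic
curve) holds for some logarithm `c` (for instance `c = 0`) of a point which is algebraic over `F` -/
def Equation (F : IntermediateField ℚ ℂ) : Option PeriodPair → ℂ → ℂ → ℂ → Prop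
  | none, A, B, u => A ≠ 0 ∧ ∃ c, IsLog F none c ∧ A * Complex.exp (u + c) = B
  | some L, A, B, u => A ≠ 0 ∧ u ≠ 0 ∧
      ∃ c, IsLog F (some L) c ∧ u + c ∉ L.lattice ∧ A * ℘[L] (u + c) = B

/-- the invariants `g₂`, `g₃` of a factor which is an elliptic curve are in `F` -/
def Inv (F : IntermediateField ℚ ℂ) : Option PeriodPair → Prop
  | none => True
  | some L => L.g₂ ∈ F ∧ L.g₃ ∈ F

open Pool.Agent.TH813 in
/-- **Main result.** Let `F` be a subfield of `ℂ`, and `T i`, `i = 1, …, n`, factors with invariants
in `F`. Let `V i` be `ℚ`-spaces of complex numbers of finite dimensions which contain no nonzero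
logarithm of a point of `T i` which is algebraic over `F`, and `R = ∑ dim V i`. Let `P_i`, `Q_i` be
polynomials over `F` in `n` variables, of total degrees at most `a` and `b`, `a ≤ b`. Then at most
`binom((a + 3 b + 2) R, R)` points `z` of `∏ V i` satisfy all equations
`P_i(z) e^{z_i + c_i} = Q_i(z)` resp. `P_i(z) ℘(z_i + c_i) = Q_i(z)`, for some logarithms `c_i` of
points of `T i` which are algebraic over `F`, and the conditions `P_i(z) ≠ 0`, and `z_i ≠ 0` if `T i`
is an elliptic curve. -/
theorem result (F : IntermediateField ℚ ℂ) (n : ℕ) (T : Fin n → Option PeriodPair)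
    (hT : ∀ i, Inv F (T i)) (V : Fin n → Submodule ℚ ℂ) (hfd : ∀ i, FiniteDimensional ℚ (V i))
    (hV : ∀ i, ∀ u ∈ V i, IsLog F (T i) u → u = 0) (a b : ℕ) (hab : a ≤ b)
    (P Q : Fin n → MvPolynomial (Fin n) F) (hP : ∀ i, (P i).totalDegree ≤ a)
    (hQ : ∀ i, (Q i).totalDegree ≤ b) :
    {z : ∀ i, V i | ∀ i, Equation F (T i) (MvPolynomial.aeval (fun j => (z j : ℂ)) (P i))
      (MvPolynomial.aeval (fun j => (z j : ℂ)) (Q i)) (z i)}.encard ≤
      (((a + 3 * b + 2) * ∑ i, finrank ℚ (V i)).choose (∑ i, finrank ℚ (V i)) : ℕ) := by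
  classical
  set N := ((a + 3 * b + 2) * ∑ i, finrank ℚ (V i)).choose (∑ i, finrank ℚ (V i)) with hN
  let e : ∀ i, Basis (Fin (finrank ℚ (V i))) ℚ (V i) := fun i => finBasis ℚ (V i)
  have hlc : ∀ i (p : V i), ZtFin.lc (fun l => (e i l : ℂ)) ((e i).repr p) = (p : ℂ) := by
    intro i p
    rw [ZtFin.lc_apply]
    have h := congrArg Subtype.val ((e i).sum_repr p)
    rw [← h]
    push_cast
    rfl
  let ι := Σ i : Fin n, Fin (finrank ℚ (V i))
  let μ : Fin n → (ι → ℚ) →ₗ[ℚ] ℂ := fun i =>
    ZtFin.lc (fun l => (e i l : ℂ)) ∘ₗ LinearMap.funLeft ℚ ℚ (fun l => (⟨i, l⟩ : ι))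
  let φ : (∀ i, V i) → (ι → ℚ) := fun z p => (e p.1).repr (z p.1) p.2
  have hφi : Function.Injective φ := by
    intro z z' h
    funext j
    apply (e j).repr.injective
    ext l
    exact congrFun h ⟨j, l⟩
  have hmu : ∀ (z : ∀ i, V i) (j : Fin n), μ j (φ z) = (z j : ℂ) := fun z j => hlc j (z j)
  have hev : ∀ (z : ∀ i, V i) (B : MvPolynomial (Fin n) F),
      DQ.ev μ B (φ z) = MvPolynomial.aeval (fun j => (z j : ℂ)) B := by
    intro z B
    unfold DQ.ev
    congr 1
    congr 1
    funext j
    exact hmu z j
  -- the translation of the conditions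
  have hnull : ∀ T u, MixSys.Null F T u → IsLog F T u := by
    intro T u h
    cases T with
    | none => exact h
    | some L => exact h
  have hinf : ∀ i, MixSys.InF F (T i) := by
    intro i
    have h := hT i
    revert h
    cases T i with
    | none => exact fun h => h
    | some L => exact fun h => h
  by_contra hcon
  rw [not_le] at hcon
  obtain ⟨t, hts, ht⟩ := Set.exists_subset_encard_eq (Order.add_one_le_of_lt hcon)
  have hfin : t.Finite := by
    rw [← Set.encard_lt_top_iff, ht]
    exact_mod_cast ENat.natCast_lt_top (N + 1)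
  have hcard : hfin.toFinset.card = N + 1 := by
    rw [hfin.encard_eq_coe_toFinset_card] at ht
    exact_mod_cast ht
  have key := MixSys.main (F := F) μ hinf P Q hP hQ hab (by
    intro z hz
    funext ⟨i, l⟩
    have h4 := hlc i ((e i).equivFun.symm (fun l => z ⟨i, l⟩))
    have h5 : ((e i).repr ((e i).equivFun.symm (fun l => z ⟨i, l⟩)) : Fin (finrank ℚ (V i)) → ℚ) =
        fun l => z ⟨i, l⟩ := (e i).equivFun.apply_symm_apply _
    rw [h5] at h4
    have h7 : μ i z = ((e i).equivFun.symm (fun l => z ⟨i, l⟩) : V i) := h4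
    have h8 := hV i _ (Subtype.mem ((e i).equivFun.symm (fun l => z ⟨i, l⟩)))
      (by rw [← h7]; exact hnull _ _ (hz i))
    have h6 : (e i).equivFun.symm (fun l => z ⟨i, l⟩) = 0 := Subtype.ext h8
    exact congrFun ((LinearEquiv.map_eq_zero_iff _).1 h6) l) (hfin.toFinset.image φ) (by
    intro x hx i
    obtain ⟨z, hz, rfl⟩ := Finset.mem_image.1 hx
    rw [hev, hev, hmu]
    have hs := hts (hfin.mem_toFinset.1 hz) i
    have hVi := hV i (z i) (z i).2
    revert hs hVi
    cases T i with
    | none =>
      rintro ⟨hA, c, hc, h⟩ -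
      have he := Complex.exp_ne_zero (z i : ℂ)
      have hec := Complex.exp_ne_zero c
      refine ⟨hA, ?_, ?_⟩
      · rw [← h]
        exact mul_ne_zero hA (Complex.exp_ne_zero _)
      · rw [← h, Complex.exp_add]
        have h4 : MvPolynomial.aeval (fun j => (z j : ℂ)) (P i) * Complex.exp (z i : ℂ) /
            (MvPolynomial.aeval (fun j => (z j : ℂ)) (P i) *
              (Complex.exp (z i : ℂ) * Complex.exp c)) = (Complex.exp c)⁻¹ := by
          field_simp
        rw [h4]
        exact hc.inv
    | some L =>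
      rintro ⟨hA, hz0, c, hc, hl, h⟩ hVi
      exact ⟨hA, fun hn => hz0 (hVi hn), c, hc, hl, h⟩)
  have hι : Fintype.card ι = ∑ i, finrank ℚ (V i) := by
    rw [Fintype.card_sigma]
    exact Finset.sum_congr rfl (fun i _ => Fintype.card_fin _)
  rw [Finset.card_image_of_injective _ hφi, hcard, hι] at key
  omega

end Pool.Agent.Results.MP_4aec10_nt.FewSolutions
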