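import Mathlib
import Pool.Agent.TH813.GFst

/-!
# The weak relative conjecture for products of `𝔾ₘ` and elliptic curves: all failures

`Λ c`, `c = 1, …, q`, are pairs of periods `ω₁, ω₂` (independent over `ℝ`), with the lattices
`Ω_c = (Λ c).lattice = ℤ ω₁ + ℤ ω₂` and the elliptic curves `E_c = ℂ / Ω_c`, which are supposed to
be pairwise non-isogenous; `℘[L]`, `L.g₂`, `L.g₃` are Mathlib's Weierstrass function and invariants
of `L = Λ c`.

For `G = 𝔾ₘ^s × ∏ E_c^(n_c)` the point `r` of the Lie algebra is a tuple `t` of `s` numbers together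
with tuples `p_c` of `n_c` numbers, and the components of `exp_G r` generate the same field, up to
algebraic numbers, as the `e^t` and the `℘(p_c)`. The connected algebraic subgroups `H` of `G` are
the products of subgroups of `𝔾ₘ^s` and of the `E_c^(n_c)`, with Lie algebras defined by linear
equations over `ℚ` and over `k_c = ℚ ⊗ End(E_c)`. So `d(exp_G r)` is the least dimension of
`y + Lie H` which contains `r`, where `exp_G y` is an algebraic point, i.e. the sum of the numbers
`d` of `t` and of the `p_c` defined below, for the spaces `A₀` and `A_c` of all logarithms of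
algebraic points of `𝔾ₘ` and of `E_c`.

The theorem describes all failures of the inequality of the problem and their defects, for every
field `F` which contains the invariants and all spaces `A₀`, `A_c`.
-/

set_option autoImplicit false

open Module
open scoped PeriodPair

namespace Pool.Agent.Results.MP_4aec10_nt.UniformFailures

/-- the field `k = ℚ ⊗ End(ℂ / Ω)` as a subfield of `ℂ`; see `mem_k` -/
noncomputable abbrev k (L : PeriodPair) : IntermediateField ℚ ℂ := Pool.Agent.TH813.Ell.kL L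

/-- `k` consists of the numbers `c` such that `n c` maps the lattice to itself for some `n > 0` -/
theorem mem_k {L : PeriodPair} {c : ℂ} :
    c ∈ k L ↔ ∃ n : ℕ, 0 < n ∧ ∀ w ∈ L.lattice, (n * c) * w ∈ L.lattice := Iff.rfl

/-- the transcendence degree over `F` of the field generated by `S` over `F` -/
noncomputable def trd (F : IntermediateField ℚ ℂ) (S : Set ℂ) : Cardinal :=
  Algebra.trdeg F (IntermediateField.adjoin F S)

/-- the dimension of a space -/
noncomputable def dim {K : Type} [Field K] [Module K ℂ] (X : Submodule K ℂ) : ℕ := finrank K X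

/-- The least dimension `k` of a set `y + h` which contains `x`, where `y` is a vector with
coordinates in `A` and `h` is a linear subspace defined by linear equations over `K`: the space of
these equations has dimension `n - k`. -/
noncomputable def d {K : Type} [Field K] [Module K ℂ] (A : Submodule K ℂ) {n : ℕ}
    (x : Fin n → ℂ) : ℕ :=
  sInf {k | ∃ (E : Submodule K (Fin n → K)) (y : Fin n → ℂ), (∀ i, y i ∈ A) ∧
    (∀ a ∈ E, ∑ i, a i • (x i - y i) = 0) ∧ k + finrank K E = n}

/-- `d` is the dimension of the span of the classes modulo `A` -/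
theorem d_eq {K : Type} [Field K] [Module K ℂ] (A : Submodule K ℂ) {n : ℕ} (x : Fin n → ℂ) :
    d A x = finrank K (Submodule.span K (Set.range (fun i => A.mkQ (x i)))) := by
  classical
  let φ : (Fin n → K) →ₗ[K] (ℂ ⧸ A) := Fintype.linearCombination K (fun i => A.mkQ (x i))
  have hφ : ∀ a, φ a = A.mkQ (∑ i, a i • x i) := by
    intro a
    change Fintype.linearCombination K (fun i => A.mkQ (x i)) a = _
    rw [Fintype.linearCombination_apply, map_sum]
    exact Finset.sum_congr rfl (fun i _ => (map_smul _ _ _).symm)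
  have hrange : LinearMap.range φ = Submodule.span K (Set.range (fun i => A.mkQ (x i))) :=
    Fintype.range_linearCombination _ _
  have hdim := φ.finrank_range_add_finrank_ker
  rw [finrank_fintype_fun_eq_card, Fintype.card_fin, hrange] at hdim
  obtain ⟨g, hg⟩ := LinearMap.exists_leftInverse_of_injective A.subtype
    (Submodule.ker_subtype _)
  have hgA : ∀ z ∈ A, ((g z : A) : ℂ) = z := fun z hz =>
    congrArg Subtype.val (LinearMap.congr_fun hg ⟨z, hz⟩)
  have hker : ∀ a, a ∈ LinearMap.ker φ ↔ ∑ i, a i • x i ∈ A := by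
    intro a
    rw [LinearMap.mem_ker, hφ, Submodule.mkQ_apply, Submodule.Quotient.mk_eq_zero]
  have h1 : finrank K (Submodule.span K (Set.range (fun i => A.mkQ (x i)))) ∈
      {k | ∃ (E : Submodule K (Fin n → K)) (y : Fin n → ℂ), (∀ i, y i ∈ A) ∧
        (∀ a ∈ E, ∑ i, a i • (x i - y i) = 0) ∧ k + finrank K E = n} := by
    refine ⟨LinearMap.ker φ, fun i => (g (x i) : ℂ), fun i => (g (x i)).2, fun a ha => ?_, hdim⟩
    have h2 := hgA _ ((hker a).1 ha)
    have h3 : ∑ i, a i • (x i - (g (x i) : ℂ)) = ∑ i, a i • x i - (g (∑ i, a i • x i) : ℂ) := by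
      rw [map_sum, Submodule.coe_sum, ← Finset.sum_sub_distrib]
      refine Finset.sum_congr rfl (fun i _ => ?_)
      rw [map_smul, Submodule.coe_smul, smul_sub]
    rw [h3, h2, sub_self]
  refine le_antisymm (Nat.sInf_le h1) (le_csInf ⟨_, h1⟩ ?_)
  rintro k ⟨E, y, hy, hE, hk⟩
  have h2 : E ≤ LinearMap.ker φ := by
    intro a ha
    rw [hker]
    have h3 := hE a ha
    have h4 : ∑ i, a i • x i = ∑ i, a i • y i := by
      rw [← sub_eq_zero, ← Finset.sum_sub_distrib, ← h3]
      exact Finset.sum_congr rfl (fun i _ => (smul_sub _ _ _).symm)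
    rw [h4]
    exact A.sum_mem (fun i _ => A.smul_mem _ (hy i))
  have h5 := Submodule.finrank_mono h2
  omega

variable {q : ℕ}

/-- The curves `ℂ / Ω_c` are pairwise non-isogenous: there is no nonzero homomorphism from one to
another. -/
def NonIsog (Λ : Fin q → PeriodPair) : Prop :=
  ∀ c c', c ≠ c' → ∀ α : ℂ, (∀ w ∈ (Λ c).lattice, α * w ∈ (Λ c').lattice) → α = 0

/-- the components of `r = (t, p)` and of `exp_G r`: the numbers `t`, `e^t`, and `p`, `℘(p)` for the
points `p` of all curves (`℘` is only taken outside the lattice) -/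
noncomputable def pts (Λ : Fin q → PeriodPair) {s : ℕ} {n : Fin q → ℕ} (t : Fin s → ℂ)
    (p : ∀ c, Fin (n c) → ℂ) : Set ℂ :=
  (Set.range t ∪ Complex.exp '' Set.range t) ∪
    ⋃ c, (Set.range (p c) ∪ ℘[Λ c] '' (Set.range (p c) \ ((Λ c).lattice : Set ℂ)))

/-- families of a `ℚ`-space and a `k_c`-space of complex numbers for every `c`; `≤`, `⊓` and `⊥`
are componentwise -/
abbrev Fam (Λ : Fin q → PeriodPair) : Type :=
  Submodule ℚ ℂ × (∀ c, Submodule (k (Λ c)) ℂ)

/-- The inequality fails by at least `m` at `r = (t, p)`, over the field `F` and for the spaces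
`A` of logarithms. -/
def Fails (Λ : Fin q → PeriodPair) (F : IntermediateField ℚ ℂ) (A : Fam Λ) (m : ℕ) {s : ℕ}
    {n : Fin q → ℕ} (t : Fin s → ℂ) (p : ∀ c, Fin (n c) → ℂ) : Prop :=
  trd F (pts Λ t p) + m ≤ ((d A.1 t + ∑ c, d (A.2 c) (p c) : ℕ) : Cardinal)

/-- the dimension is finite and at most `r` -/
def Sm {K : Type} [Field K] [Module K ℂ] (r : ℕ) (X : Submodule K ℂ) : Prop :=
  FiniteDimensional K X ∧ finrank K X ≤ r

/-- all spaces have dimension at most `r` -/
def Small (Λ : Fin q → PeriodPair) (r : ℕ) (V : Fam Λ) : Prop :=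
  Sm r V.1 ∧ ∀ c, Sm r (V.2 c)

/-- the tuples `t`, `p` are in the family `U` -/
def In {Λ : Fin q → PeriodPair} (U : Fam Λ) {s : ℕ} {n : Fin q → ℕ} (t : Fin s → ℂ)
    (p : ∀ c, Fin (n c) → ℂ) : Prop := (∀ i, t i ∈ U.1) ∧ ∀ c i, p c i ∈ U.2 c

/-- all `x` in `X₀` and `e^w` with `w` in `W₀`, and for every `c` all `x` in `X_c` and all `℘(w)`
with `w` in `W_c` (`℘` is only taken outside the lattice) -/
noncomputable def num (Λ : Fin q → PeriodPair) (X W : Fam Λ) : Set ℂ :=
  ((X.1 : Set ℂ) ∪ Complex.exp '' (W.1 : Set ℂ)) ∪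
    ⋃ c, ((X.2 c : Set ℂ) ∪ ℘[Λ c] '' ((W.2 c : Set ℂ) \ ((Λ c).lattice : Set ℂ)))

/-- some family `X` inside `Y` with `X ∩ A = 0` has
`trdeg_F F(num (X, W)) + m ≤ dim X₀ + ∑ dim X_c` -/
def Bad (Λ : Fin q → PeriodPair) (F : IntermediateField ℚ ℂ) (A : Fam Λ) (m : ℕ)
    (Y W : Fam Λ) : Prop :=
  ∃ X ≤ Y, X ⊓ A = ⊥ ∧
    trd F (num Λ X W) + m ≤ ((dim X.1 + ∑ c, dim (X.2 c) : ℕ) : Cardinal)

/-- the invariants `g₂`, `g₃` of all curves are in `F` -/
def Inv (Λ : Fin q → PeriodPair) (F : IntermediateField ℚ ℂ) : Prop :=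
  ∀ c, (Λ c).g₂ ∈ F ∧ (Λ c).g₃ ∈ F

open Pool.Agent.TH813.G in
/-- **Main result.** -/
theorem result (q r : ℕ) : ∃ N : ℕ, ∀ Λ : Fin q → PeriodPair, NonIsog Λ →
    ∀ F : IntermediateField ℚ ℂ, Inv Λ F → ∀ A V : Fam Λ, Small Λ r V →
    ∃ T : Finset (Fam Λ), T.card ≤ N ∧
      (∀ W ∈ T, W ≤ V ∧ Bad Λ F A 1 W W) ∧
      ∀ U ≤ V, ∀ m : ℕ, 0 < m →
        ((∃ (s : ℕ) (n : Fin q → ℕ) (t : Fin s → ℂ) (p : ∀ c, Fin (n c) → ℂ),
            Fails Λ F A m t p ∧ In U t p) ↔
          ∃ W ∈ T, Bad Λ F A m (U ⊓ W) W) := by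
  obtain ⟨N, hN⟩ := mainC1 q r
  refine ⟨N, fun Λ hni F hF A V ⟨⟨hf1, hr1⟩, hf⟩ => ?_⟩
  have hV : FdL V := ⟨hf1, fun c => (hf c).1⟩
  obtain ⟨T, hT1, hT2, hT3⟩ := hN Λ hni F (fun c => (hF c).1) (fun c => (hF c).2) A V hV hr1
    (fun c => (hf c).2)
  refine ⟨T, hT1, fun W hW => hT2 W hW, fun U hUV m hm => ?_⟩
  have key := (tup_iff1 (fun c => (hF c).1) (fun c => (hF c).2) (A := A) (hV.mono hUV) m).trans
    (hT3 U hUV m hm)
  have hd : ∀ {s : ℕ} {n : Fin q → ℕ} (t : Fin s → ℂ) (p : ∀ c, Fin (n c) → ℂ),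
      d A.1 t + ∑ c, d (A.2 c) (p c) = dmod A.1 t + ∑ c, dmod (A.2 c) (p c) := by
    intro s n t p
    congr 1
    · exact d_eq A.1 t
    · exact Finset.sum_congr rfl (fun c _ => d_eq (A.2 c) (p c))
  constructor
  · rintro ⟨s, n, t, p, hle, ht, hpU⟩
    unfold Fails at hle
    rw [hd] at hle
    exact key.1 ⟨s, n, t, p, hle, ht, hpU⟩
  · intro h
    obtain ⟨s, n, t, p, hle, ht, hpU⟩ := key.2 h
    refine ⟨s, n, t, p, ?_, ht, hpU⟩
    unfold Fails
    rw [hd]
    exact hle

end Pool.Agent.Results.MP_4aec10_nt.UniformFailures
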